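import Mathlib
import Pool.Agent.H30.Sigma

set_option autoImplicit false

namespace Pool.Agent.Results.MP_a67be6_gt.Cube

open Set Filter Topology

/-- Closed discrete subsets. -/
def ClosedDiscrete {X : Type*} [TopologicalSpace X] (A : Set X) : Prop :=
  IsClosed A ∧ DiscreteTopology A

/-- `e`-separable spaces. -/
def SmallESep (X : Type*) [TopologicalSpace X] : Prop :=
  ∃ A : ℕ → Set X, (∀ n, ClosedDiscrete (A n)) ∧ Dense (⋃ n, A n)

/-- `E`-separable spaces. -/
def BigESep (X : Type*) [TopologicalSpace X] : Prop :=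
  ∀ D : ℕ → Set X, (∀ n, Dense (D n)) →
    ∃ E : ℕ → Set X, (∀ n, E n ⊆ D n ∧ ClosedDiscrete (E n)) ∧ Dense (⋃ n, E n)

open Pool.Agent.H30.Sigma in
theorem result : DiscreteTopology Bool ∧ SmallESep ((ℕ → Bool) → Bool) ∧
    ¬ BigESep ((ℕ → Bool) → Bool) := by
  classical
  refine ⟨inferInstance, ⟨fun n => range fun (g : (Fin n → Bool) → Bool) (x : ℕ → Bool) =>
    g fun i => x i, fun n => ⟨(finite_range _).isClosed, ?_⟩, ?_⟩, fun h => ?_⟩
  · exact (finite_range _).isDiscrete.to_subtype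
  · rw [dense_iff_inter_open]
    rintro U hU ⟨y, hy⟩
    obtain ⟨F, hF⟩ := box hU hy
    have : ∀ᶠ n : ℕ in atTop, ∀ a ∈ F, ∀ b ∈ F, (∀ i < n, a i = b i) → a = b := by
      rw [Finset.eventually_all]
      intro a _
      rw [Finset.eventually_all]
      intro b _
      by_cases e : a = b
      · exact Eventually.of_forall fun _ _ => e
      · obtain ⟨i, hi⟩ := Function.ne_iff.1 e
        filter_upwards [eventually_gt_atTop i] with n hn h
        exact absurd (h i hn) hi
    obtain ⟨n, hn⟩ := this.exists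
    refine ⟨_, hF _ fun a ha => ?_, mem_iUnion.2 ⟨n, fun s =>
      if h : ∃ b ∈ F, (fun i : Fin n => b i) = s then y h.choose else false, rfl⟩⟩
    have h : ∃ b ∈ F, (fun i : Fin n => b i) = fun i : Fin n => a i := ⟨a, ha, rfl⟩
    simp only [dif_pos h]
    rw [hn _ h.choose_spec.1 a ha fun i hi => congrFun h.choose_spec.2 ⟨i, hi⟩]
  · obtain ⟨E, hE, hd⟩ := h (fun _ => {x | {i | x i = true}.Countable}) fun _ => dense_cnt
    have hf : ∀ n, (E n).Finite := fun n =>
      (hE n).2.1.isCompact.finite (isDiscrete_iff_discreteTopology.2 (hE n).2.2)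
    have hc : (⋃ n, ⋃ x ∈ E n, {i | x i = true}).Countable :=
      countable_iUnion fun n => (hf n).countable.biUnion fun x hx => (hE n).1 hx
    have : (⋃ n, ⋃ x ∈ E n, {i | x i = true})ᶜ.Nonempty := by
      rw [nonempty_compl]
      intro e
      haveI : Uncountable (ℕ → Bool) := by
        rw [← Cardinal.aleph0_lt_mk_iff]
        simp [Cardinal.aleph0_lt_continuum]
      exact not_countable (countable_univ_iff.1 (e ▸ hc))
    obtain ⟨t, ht⟩ := this
    have ho : IsOpen {x : (ℕ → Bool) → Bool | x t = true} :=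
      (continuous_apply (A := fun _ => Bool) t).isOpen_preimage {true} (isOpen_discrete _)
    obtain ⟨x, hx, hx'⟩ := hd.inter_open_nonempty _ ho ⟨fun _ => true, rfl⟩
    obtain ⟨n, hn⟩ := mem_iUnion.1 hx'
    exact ht (mem_iUnion.2 ⟨n, mem_biUnion hn hx⟩)

end Pool.Agent.Results.MP_a67be6_gt.Cube
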